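import Pool.Agent.Y489.PH.Stm2
import Pool.Agent.Y485.HS.Loc

/-!
# Project PH: rescaling (helper523, for helper489)
-/

set_option autoImplicit false

open MeasureTheory Set Metric Filter Topology
open scoped ENNReal NNReal

noncomputable section

namespace Pool.Agent.Y523.PH

open Pool.Agent.Y485.HS Pool.Agent.Y489.PH

/-- elements close to `1` move all points of the ball by little -/
theorem small_nhds {n : ℕ} {H : Type} [Group H] [TopologicalSpace H] {T : H → E n → E n}
    (hT : LocAct n H T) {ε : ℝ} (hε : 0 < ε) :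
    ∀ᶠ k in 𝓝 (1 : H), ∀ w ∈ BB n, dist (T k w) w < ε := by
  have hBc : IsCompact (BB n) := isCompact_closedBall _ _
  have : CompactSpace (BB n) := isCompact_iff_compactSpace.1 hBc
  have hc : Continuous (fun q : H × (BB n) => dist (T q.1 (q.2 : E n)) (q.2 : E n)) := by
    have h1 : Continuous (fun q : H × (BB n) => (q.1, (q.2 : E n))) := by fun_prop
    have h2 : Continuous (fun q : H × (BB n) => T q.1 (q.2 : E n)) :=
      hT.cont.comp_continuous h1 (fun q => ⟨mem_univ _, q.2.2⟩)
    have h3 : Continuous (fun q : H × (BB n) => (q.2 : E n)) := by fun_prop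
    exact h2.dist h3
  have h1 : ∀ w ∈ (univ : Set (BB n)), ∀ᶠ q : H × (BB n) in 𝓝 (1, w),
      dist (T q.1 (q.2 : E n)) (q.2 : E n) < ε := by
    intro w _
    have h2 : dist (T (1 : H) (w : E n)) (w : E n) < ε := by
      rw [hT.one _ w.2, dist_self]
      exact hε
    exact (hc.continuousAt (x := ((1 : H), w))).eventually_lt_const h2
  have h2 := isCompact_univ.eventually_forall_of_forall_eventually
    (P := fun (k : H) (w : BB n) => dist (T k (w : E n)) (w : E n) < ε) h1
  filter_upwards [h2] with k hk w hw using hk ⟨w, hw⟩ (mem_univ _)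

theorem t_RES : S_RES := by
  intro n H _ _ _ _ _ _ T hT y hy K hK ρ hρ
  have hy2 : ‖y‖ < 2 := by simpa using hy
  set r : ℝ := min ρ 1 with hr
  have hr0 : 0 < r := lt_min hρ one_pos
  have hr1 : r ≤ 1 := min_le_right _ _
  have hε : 0 < r / 16 := by positivity
  obtain ⟨V, hVs, hVo, hV1⟩ := mem_nhds_iff.1 (small_nhds hT hε)
  obtain ⟨N, hN⟩ := ProfiniteGrp.exist_openNormalSubgroup_sub_open_nhds_of_one hVo hV1
  refine ⟨r, K ⊓ N.toSubgroup, hr0, min_le_left _ _, hr1, ?_, inf_le_left, ?_⟩
  · rw [Subgroup.coe_inf]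
    exact hK.inter N.isOpen'
  have hsm : ∀ k : (K ⊓ N.toSubgroup : Subgroup H), ∀ w ∈ BB n,
      dist (T (k : H) w) w < r / 16 := by
    intro k w hw
    exact hVs (hN k.2.2) w hw
  have hw : ∀ v ∈ BB n, y + (r / 4) • v ∈ BB n := by
    intro v hv
    rw [mem_BB] at hv ⊢
    calc ‖y + (r / 4) • v‖ ≤ ‖y‖ + ‖(r / 4) • v‖ := norm_add_le _ _
      _ = ‖y‖ + (r / 4) * ‖v‖ := by
          rw [norm_smul, Real.norm_of_nonneg (by positivity)]
      _ ≤ ‖y‖ + (r / 4) * 4 := by gcongr
      _ ≤ 4 := by linarith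
  have hback : ∀ (k : H) (v : E n),
      y + (r / 4) • ((4 / r) • (T k (y + (r / 4) • v) - y)) = T k (y + (r / 4) • v) := by
    intro k v
    rw [smul_smul]
    have : r / 4 * (4 / r) = 1 := by field_simp
    rw [this, one_smul]
    abel
  refine ⟨?_, ?_, ?_, ?_⟩
  · have h1 : ContinuousOn (fun q : (K ⊓ N.toSubgroup : Subgroup H) × E n =>
        T (q.1 : H) (y + (r / 4) • q.2)) (univ ×ˢ BB n) := by
      have hc : Continuous (fun q : (K ⊓ N.toSubgroup : Subgroup H) × E n =>
          ((q.1 : H), y + (r / 4) • q.2)) := by fun_prop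
      refine hT.cont.comp hc.continuousOn ?_
      rintro ⟨k, v⟩ ⟨-, hv⟩
      exact ⟨mem_univ _, hw v hv⟩
    exact (h1.sub continuousOn_const).const_smul (4 / r)
  · intro v hv
    show (4 / r) • (T (1 : H) (y + (r / 4) • v) - y) = v
    rw [hT.one _ (hw v hv), add_sub_cancel_left, smul_smul]
    have : 4 / r * (r / 4) = 1 := by field_simp
    rw [this, one_smul]
  · intro h k v hv hkv
    show (4 / r) • (T ((h : H) * (k : H)) (y + (r / 4) • v) - y) = (4 / r) • (T (h : H)
      (y + (r / 4) • ((4 / r) • (T (k : H) (y + (r / 4) • v) - y))) - y)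
    have h2 := hw _ hkv
    rw [hback] at h2
    rw [hback, hT.mul _ _ _ (hw v hv) h2]
  · intro k v hv
    have h1 := hsm k _ (hw v hv)
    have h2 : (4 / r) • (T (k : H) (y + (r / 4) • v) - y) - v =
        (4 / r) • (T (k : H) (y + (r / 4) • v) - (y + (r / 4) • v)) := by
      have : v = (4 / r) • ((r / 4) • v) := by
        rw [smul_smul]
        have : 4 / r * (r / 4) = 1 := by field_simp
        rw [this, one_smul]
      nth_rewrite 2 [this]
      rw [← smul_sub]
      congr 1
      abel
    show dist ((4 / r) • (T (k : H) (y + (r / 4) • v) - y)) v ≤ 1 / 4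
    rw [dist_eq_norm, h2, norm_smul, Real.norm_of_nonneg (by positivity), ← dist_eq_norm]
    calc 4 / r * dist (T (k : H) (y + (r / 4) • v)) (y + (r / 4) • v) ≤ 4 / r * (r / 16) := by
          gcongr
      _ = 1 / 4 := by field_simp; norm_num

end Pool.Agent.Y523.PH
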